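import Pool.Agent.Q48.FS.Main

set_option autoImplicit false

/-!
# Four squares and almost prime pairs: the expected number, in every residue class

Q1 asks for a representation `n = x² + y² + z² + w²` of every odd `n` for which `p = x² + 3 y² + 5 z² + 7 w²` and `p - 2` are
primes. For all large odd `n`, all odd squarefree moduli `M ≤ n ^ δ` and EVERY primitive residue class modulo `M` of solutions
of the equation: the number of the primitive representations of `n` in this class for which `p` and `p - 2` have no prime factor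
`≤ z` (except for those of `M`) is the expected one, up to a factor `1 ± ε`, for all `z ≤ n ^ δ`. Hence every class in which it
is possible contains at least `(1 - ε)` times the expected number of representations for which `p` and `p - 2` have at most `K`
prime factors, all `> n ^ δ`, and at most `1 + ε` times the expected number (for `z = n ^ δ`) for which both are primes.
-/

namespace Pool.Agent.Results.MP_0ad054_nt.AllClasses

open Finset
open Pool.Agent.W65.FS (Gl mem_Gl)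

/-- the number `p` of the question -/
def p (X : Fin 4 → ℤ) : ℤ := X 0 ^ 2 + 3 * X 1 ^ 2 + 5 * X 2 ^ 2 + 7 * X 3 ^ 2

/-- the primitive representations of `n` as a sum of four squares in the class of `v` modulo `M` -/
def Rep (n M : ℕ) (v : Fin 4 → ℤ) : Set (Fin 4 → ℤ) :=
  {X | ∑ i, X i ^ 2 = n ∧ (∀ l : ℕ, l.Prime → ∃ i, ¬ (l : ℤ) ∣ X i) ∧ ∀ i, (M : ℤ) ∣ X i - v i}

open Classical in
/-- the vectors modulo `l` which are solutions of the equation, not zero, and for which `l` divides `p` or `p - 2` -/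
noncomputable def bad (n l : ℕ) : Finset (Fin 4 → ℤ) := (Gl n l).filter fun c => (l : ℤ) ∣ p c * (p c - 2)

open Classical in
/-- the expected proportion of the representations for which no odd prime `l ≤ z`, `l ∤ M`, divides `p` or `p - 2` -/
noncomputable def V (n M z : ℕ) : ℝ :=
  ∏ l ∈ (Icc 3 z).filter (fun l => l.Prime ∧ ¬ l ∣ M), (1 - ((bad n l).card : ℝ) / (Gl n l).card)

open Pool.Agent.W65.FS Pool.Agent.Q48.FS

lemma p_eq (X : Fin 4 → ℤ) : p X = pf X := rfl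

lemma gc_iff (n : ℕ) (hn : 1 ≤ n) (X : Fin 4 → ℤ) (h : ∑ i, X i ^ 2 = n) : gc X = 1 ↔ ∀ l : ℕ, l.Prime → ∃ i, ¬ (l : ℤ) ∣ X i := by
  constructor
  · intro h1 l hl
    by_contra h2
    push Not at h2
    have h3 := (dvd_gc l X).2 h2
    rw [h1] at h3
    exact hl.one_lt.ne' (Nat.dvd_one.1 h3)
  · intro h1
    by_contra h2
    obtain ⟨l, hl, hd⟩ := Nat.exists_prime_and_dvd h2
    obtain ⟨i, hi⟩ := h1 l hl
    exact hi ((dvd_gc l X).1 hd i)

lemma Rep_eq (n M : ℕ) (hn : 1 ≤ n) (v : Fin 4 → ℤ) : Rep n M v = ((prc n M v : Finset (Fin 4 → ℤ)) : Set (Fin 4 → ℤ)) := by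
  ext X
  unfold Rep prc
  rw [Set.mem_ofPred_eq, mem_coe, mem_filter, mem_repsc]
  constructor
  · rintro ⟨h1, h2, h3⟩
    exact ⟨⟨h1, h3⟩, (gc_iff n hn X h1).2 h2⟩
  · rintro ⟨⟨h1, h3⟩, h2⟩
    exact ⟨h1, (gc_iff n hn X h1).1 h2, h3⟩

lemma Rep_card (n M : ℕ) (hn : 1 ≤ n) (v : Fin 4 → ℤ) : (Rep n M v).ncard = (prc n M v).card := by
  rw [Rep_eq n M hn v, Set.ncard_coe_finset]

lemma bad_eq (n l : ℕ) : bad n l = Bl ff n l := by
  unfold bad Bl ff
  rfl

lemma V_eq (n M z : ℕ) : V n M z = Vd n M z (bad n) := rfl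

lemma odd_ff (n : ℕ) (hn : Odd n) (X : Fin 4 → ℤ) (hX : ∑ i, X i ^ 2 = n) : ¬ (2 : ℤ) ∣ p X * (p X - 2) := by
  intro h2
  have h3 := pf_odd n hn X hX
  rcases (Int.prime_two).dvd_or_dvd h2 with h4 | h4
  · exact h3 h4
  · apply h3
    have := dvd_add h4 (dvd_refl (2 : ℤ))
    rw [sub_add_cancel] at this
    exact this

/-- the sifted set -/
lemma sift_mem (n M z : ℕ) (hn : Odd n) (hM : Odd M) (v X : Fin 4 → ℤ) :
    X ∈ sift n M v z (bad n) ↔ X ∈ Rep n M v ∧ ∀ l : ℕ, l.Prime → l ≤ z → ¬ l ∣ M → ¬ (l : ℤ) ∣ p X * (p X - 2) := by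
  rw [Rep_eq n M hn.pos v, mem_coe]
  unfold sift
  rw [mem_filter]
  refine and_congr_right fun hX => ?_
  have hX' := hX
  unfold prc at hX'
  rw [mem_filter, mem_repsc] at hX'
  constructor
  · intro h l hl hlz hlM hd
    by_cases h2 : l = 2
    · subst h2
      exact odd_ff n hn X hX'.1.1 (by exact_mod_cast hd)
    apply h l (by rw [mem_Pr]; exact ⟨⟨by have := hl.two_le; omega, hlz⟩, hl, hlM⟩)
    rw [bad_eq, mem_Bl]
    refine ⟨red_mem n l hl X hX'.1.1 hX'.2, ?_⟩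
    have h3 := ff_congr l X (red l X) (red_dvd l X)
    have h4 := dvd_sub hd h3
    have e : p X * (p X - 2) - (ff X - ff (red l X)) = ff (red l X) := by
      unfold ff
      rw [p_eq]
      ring
    rwa [e] at h4
  · intro h l hl hd
    rw [mem_Pr] at hl
    apply h l hl.2.1 hl.1.2 hl.2.2
    rw [bad_eq, mem_Bl] at hd
    have h3 := ff_congr l X (red l X) (red_dvd l X)
    have h4 := dvd_add h3 hd.2
    have e : (ff X - ff (red l X)) + ff (red l X) = p X * (p X - 2) := by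
      unfold ff
      rw [p_eq]
      ring
    rwa [e] at h4

/-- **The expected number of almost prime pairs in every residue class.** -/
theorem result (ε : ℝ) (hε : 0 < ε) : ∃ δ : ℝ, 0 < δ ∧ ∃ K n₀ : ℕ, ∀ n M : ℕ, Odd n → n₀ ≤ n → Odd M → Squarefree M →
    (M : ℝ) ≤ (n : ℝ) ^ δ → ∀ v : Fin 4 → ℤ, (M : ℤ) ∣ (∑ i, v i ^ 2) - n → (∀ l : ℕ, l.Prime → l ∣ M → ∃ i, ¬ (l : ℤ) ∣ v i) →
    -- the number of all primitive representations in the class
    |((Rep n M v).ncard : ℝ) - (Rep n 1 0).ncard * ∏ l ∈ M.primeFactors, (1 / ((Gl n l).card : ℝ))| ≤ ε * (Rep n M v).ncard ∧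
    (n : ℝ) ^ (9 / 10 : ℝ) ≤ (Rep n M v).ncard ∧
    -- those for which `p` and `p - 2` have no small prime factors
    (∀ z : ℕ, (z : ℝ) ≤ (n : ℝ) ^ δ → 0 < V n M z ∧
      |(({X | X ∈ Rep n M v ∧ ∀ l : ℕ, l.Prime → l ≤ z → ¬ l ∣ M → ¬ (l : ℤ) ∣ p X * (p X - 2)} : Set (Fin 4 → ℤ)).ncard : ℝ) -
        (Rep n M v).ncard * V n M z| ≤ ε * ((Rep n M v).ncard * V n M z)) ∧
    -- almost prime pairs
    ((∀ l : ℕ, l.Prime → l ∣ M → ¬ (l : ℤ) ∣ p v * (p v - 2)) →
      (1 - ε) * ((Rep n M v).ncard * V n M ⌊(n : ℝ) ^ δ⌋₊) ≤ ({X | X ∈ Rep n M v ∧ 0 < p X ∧ 0 < p X - 2 ∧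
        ArithmeticFunction.cardFactors (p X).natAbs ≤ K ∧ ArithmeticFunction.cardFactors (p X - 2).natAbs ≤ K ∧
        ∀ l : ℕ, l.Prime → (l : ℤ) ∣ p X * (p X - 2) → (n : ℝ) ^ δ < l} : Set (Fin 4 → ℤ)).ncard) ∧
    -- prime pairs
    (({X | X ∈ Rep n M v ∧ Prime (p X) ∧ Prime (p X - 2)} : Set (Fin 4 → ℤ)).ncard : ℝ) ≤
      (1 + ε) * ((Rep n M v).ncard * V n M ⌊(n : ℝ) ^ δ⌋₊) := by
  classical
  obtain ⟨δ, hδ, n₀, h⟩ := fund 8 ε hε
  obtain ⟨δ', hδ'⟩ : ∃ δ' : ℝ, δ' = min δ (1 / 2) := ⟨_, rfl⟩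
  have hδ'0 : 0 < δ' := by rw [hδ']; positivity
  have hδ'1 : δ' ≤ δ := by rw [hδ']; exact min_le_left _ _
  have hδ'2 : δ' ≤ 1 / 2 := by rw [hδ']; exact min_le_right _ _
  obtain ⟨K, hK⟩ := exists_nat_ge (2 / δ')
  refine ⟨δ', hδ'0, K, n₀ + 100, fun n M hn hn0 hMo hMs hMn v hv hv2 => ?_⟩
  have hn1 : (1 : ℝ) ≤ n := by exact_mod_cast hn.pos
  have hn100 : (100 : ℝ) ≤ n := by exact_mod_cast (show 100 ≤ n by omega)
  have hnr0 : (0 : ℝ) < n := by linarith
  have hle : (n : ℝ) ^ δ' ≤ (n : ℝ) ^ δ := Real.rpow_le_rpow_of_exponent_le hn1 hδ'1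
  have hB : ∀ z : ℕ, ∀ l ∈ Pr M z, bad n l ⊆ Gl n l ∧ (bad n l).card ≤ 8 * l ^ 2 := by
    intro z l hl
    rw [mem_Pr] at hl
    rw [bad_eq]
    exact ⟨fun c hc => ((mem_Bl ff n l c).1 hc).1, Bl_card l hl.2.1 (by omega) n⟩
  have hgen := fun (z : ℕ) (hz : (z : ℝ) ≤ (n : ℝ) ^ δ') =>
    h n M z hn (by omega) hMo.pos hMo hMs (hMn.trans hle) (hz.trans hle) v ⟨hv, hv2⟩
  have hfinR : (Rep n M v).Finite := by
    rw [Rep_eq n M hn.pos v]
    exact Finset.finite_toSet _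
  have hset : ∀ z : ℕ, ({X | X ∈ Rep n M v ∧ ∀ l : ℕ, l.Prime → l ≤ z → ¬ l ∣ M → ¬ (l : ℤ) ∣ p X * (p X - 2)} : Set (Fin 4 → ℤ)) =
      ((sift n M v z (bad n) : Finset (Fin 4 → ℤ)) : Set (Fin 4 → ℤ)) := by
    intro z
    ext X
    rw [mem_coe, sift_mem n M z hn hMo v X]
    rfl
  have hV0 : ∀ z : ℕ, 0 < V n M z := by
    intro z
    unfold V
    apply prod_pos
    intro l hl
    rw [mem_filter, mem_Icc] at hl
    have hl2 : l ≠ 2 := by omega
    have h1 := Gl_pos n l hl.2.1 hl2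
    rw [sub_pos, div_lt_one h1]
    obtain ⟨c, hc, hc2⟩ := local_ff l hl.2.1 hl2 n
    have h2 : (bad n l).card < (Gl n l).card := by
      apply card_lt_card
      refine (Finset.ssubset_iff_of_subset (show bad n l ⊆ Gl n l from filter_subset _ _)).2 ⟨c, hc, fun h3 => hc2 ?_⟩
      exact (mem_filter.1 h3).2
    exact_mod_cast h2
  have hzero := hgen 0 (by simpa using (Real.rpow_pos_of_pos hnr0 δ').le)
  have hmain : ∀ z : ℕ, (z : ℝ) ≤ (n : ℝ) ^ δ' →
      |(({X | X ∈ Rep n M v ∧ ∀ l : ℕ, l.Prime → l ≤ z → ¬ l ∣ M → ¬ (l : ℤ) ∣ p X * (p X - 2)} : Set (Fin 4 → ℤ)).ncard : ℝ) -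
        (Rep n M v).ncard * V n M z| ≤ ε * ((Rep n M v).ncard * V n M z) := by
    intro z hz
    have h1 := (hgen z hz).2.2 (bad n) (hB z)
    rw [hset, Set.ncard_coe_finset, Rep_card n M hn.pos v, V_eq]
    exact h1
  have hfloor : ((⌊(n : ℝ) ^ δ'⌋₊ : ℕ) : ℝ) ≤ (n : ℝ) ^ δ' := Nat.floor_le (Real.rpow_nonneg hnr0.le _)
  refine ⟨?_, ?_, fun z hz => ⟨hV0 z, hmain z hz⟩, ?_, ?_⟩
  · rw [Rep_card n M hn.pos v, Rep_card n 1 hn.pos 0, prc_one]
    exact hzero.1
  · rw [Rep_card n M hn.pos v]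
    exact hzero.2.1
  · intro hvM
    have h1 := (abs_le.1 (hmain _ hfloor)).1
    have h2 : (({X | X ∈ Rep n M v ∧ ∀ l : ℕ, l.Prime → l ≤ ⌊(n : ℝ) ^ δ'⌋₊ → ¬ l ∣ M → ¬ (l : ℤ) ∣ p X * (p X - 2)} : Set (Fin 4 → ℤ)).ncard : ℝ) ≤
        ({X | X ∈ Rep n M v ∧ 0 < p X ∧ 0 < p X - 2 ∧
        ArithmeticFunction.cardFactors (p X).natAbs ≤ K ∧ ArithmeticFunction.cardFactors (p X - 2).natAbs ≤ K ∧
        ∀ l : ℕ, l.Prime → (l : ℤ) ∣ p X * (p X - 2) → (n : ℝ) ^ δ' < l} : Set (Fin 4 → ℤ)).ncard := by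
      rw [Nat.cast_le]
      refine Set.ncard_le_ncard ?_ (hfinR.subset fun X hX => hX.1)
      rintro X ⟨hX, hl⟩
      have hXn : ∑ i, X i ^ 2 = n := hX.1
      have hlow := pf_lower n X hXn
      have hup := pf_upper n X hXn
      have hnz : (100 : ℤ) ≤ n := by exact_mod_cast (show 100 ≤ n by omega)
      have hpos : 0 < p X := by rw [p_eq]; linarith
      have hpos2 : 0 < p X - 2 := by rw [p_eq]; linarith
      have hlarge : ∀ l : ℕ, l.Prime → (l : ℤ) ∣ p X * (p X - 2) → (n : ℝ) ^ δ' < l := by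
        intro l hlp hd
        by_contra hcon
        push Not at hcon
        have h3 : l ≤ ⌊(n : ℝ) ^ δ'⌋₊ := Nat.le_floor hcon
        by_cases hlM : l ∣ M
        · apply hvM l hlp hlM
          have h4 : ∀ i, (l : ℤ) ∣ X i - v i := fun i => (Int.natCast_dvd_natCast.2 hlM).trans (hX.2.2 i)
          have h5 := ff_congr l X v h4
          have h6 := dvd_sub hd h5
          have e : p X * (p X - 2) - (ff X - ff v) = p v * (p v - 2) := by
            unfold ff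
            rw [p_eq, p_eq]
            ring
          rwa [e] at h6
        · exact hl l hlp h3 hlM hd
      have hcard : ∀ m : ℕ, m ≠ 0 → (m : ℝ) ≤ 7 * n → (∀ q : ℕ, q.Prime → q ∣ m → (n : ℝ) ^ δ' < q) →
          ArithmeticFunction.cardFactors m ≤ K := by
        intro m hm0 hm7 hq
        have h4 := omega_bound ((n : ℝ) ^ δ') (by positivity) m hm0 (fun q hq1 hq2 => (hq q hq1 hq2).le)
        by_contra hcon
        push Not at hcon
        have h5 : (n : ℝ) ^ (2 : ℝ) ≤ ((n : ℝ) ^ δ') ^ (ArithmeticFunction.cardFactors m) := by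
          rw [← Real.rpow_natCast, ← Real.rpow_mul hnr0.le]
          apply Real.rpow_le_rpow_of_exponent_le hn1
          rw [div_le_iff₀ hδ'0] at hK
          have h6 : (K : ℝ) ≤ ArithmeticFunction.cardFactors m := by exact_mod_cast hcon.le
          nlinarith
        have h6 : (n : ℝ) ^ (2 : ℝ) = (n : ℝ) ^ (2 : ℕ) := by
          rw [← Real.rpow_natCast]; norm_num
        rw [h6] at h5
        nlinarith
      refine ⟨hX, hpos, hpos2, ?_, ?_, hlarge⟩
      · apply hcard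
        · exact Int.natAbs_ne_zero.2 hpos.ne'
        · have h4 : ((p X).natAbs : ℤ) = p X := Int.natAbs_of_nonneg hpos.le
          have h5 : ((p X).natAbs : ℤ) ≤ 7 * n := by rw [h4]; exact hup
          exact_mod_cast h5
        · intro q hq hqd
          exact hlarge q hq ((Int.natCast_dvd.2 hqd).mul_right _)
      · apply hcard
        · exact Int.natAbs_ne_zero.2 hpos2.ne'
        · have h4 : ((p X - 2).natAbs : ℤ) = p X - 2 := Int.natAbs_of_nonneg hpos2.le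
          have h5 : ((p X - 2).natAbs : ℤ) ≤ 7 * n := by
            rw [h4]
            rw [p_eq]
            linarith
          exact_mod_cast h5
        · intro q hq hqd
          exact hlarge q hq ((Int.natCast_dvd.2 hqd).mul_left _)
    linarith
  · have h1 := (abs_le.1 (hmain _ hfloor)).2
    have h2 : (({X | X ∈ Rep n M v ∧ Prime (p X) ∧ Prime (p X - 2)} : Set (Fin 4 → ℤ)).ncard : ℝ) ≤
        (({X | X ∈ Rep n M v ∧ ∀ l : ℕ, l.Prime → l ≤ ⌊(n : ℝ) ^ δ'⌋₊ → ¬ l ∣ M → ¬ (l : ℤ) ∣ p X * (p X - 2)} : Set (Fin 4 → ℤ)).ncard : ℝ) := by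
      rw [Nat.cast_le]
      refine Set.ncard_le_ncard ?_ (hfinR.subset fun X hX => hX.1)
      rintro X ⟨hX, hp1, hp2⟩
      refine ⟨hX, fun l hlp hlz _ hd => ?_⟩
      have hlow := pf_lower n X hX.1
      have hlz2 : (l : ℝ) ≤ (n : ℝ) ^ (1 / 2 : ℝ) := by
        have h3 : (l : ℝ) ≤ ((⌊(n : ℝ) ^ δ'⌋₊ : ℕ) : ℝ) := by exact_mod_cast hlz
        exact (h3.trans hfloor).trans (Real.rpow_le_rpow_of_exponent_le hn1 hδ'2)
      have hll : (l : ℝ) * l ≤ n := by
        have h4 : (n : ℝ) ^ (1 / 2 : ℝ) * (n : ℝ) ^ (1 / 2 : ℝ) = n := by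
          rw [← Real.rpow_add hnr0]
          norm_num
        calc (l : ℝ) * l ≤ (n : ℝ) ^ (1 / 2 : ℝ) * (n : ℝ) ^ (1 / 2 : ℝ) := by gcongr
          _ = n := h4
      have hll' : l * l ≤ n := by exact_mod_cast hll
      have hlow' : (n : ℤ) - 2 ≤ p X - 2 := by rw [p_eq]; linarith
      have hl2 := hlp.two_le
      have key : ∀ q : ℤ, (n : ℤ) - 2 ≤ q → Prime q → (l : ℤ) ∣ q → False := by
        intro q hq1 hq2 hq3
        have h5 := (Int.prime_iff_natAbs_prime.1 hq2)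
        have h6 : l ∣ q.natAbs := Int.natCast_dvd.1 hq3
        have h7 := (Nat.prime_dvd_prime_iff_eq hlp h5).1 h6
        have h8 : ((q.natAbs : ℕ) : ℤ) = q := Int.natAbs_of_nonneg (by
          have : (100 : ℤ) ≤ n := by exact_mod_cast (show 100 ≤ n by omega)
          linarith)
        have h9 : (n : ℤ) - 2 ≤ l := by rw [h7, h8]; exact hq1
        have h10 : (100 : ℤ) ≤ n := by exact_mod_cast (show 100 ≤ n by omega)
        have h11 : (l : ℤ) * l ≤ n := by exact_mod_cast hll'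
        nlinarith
      rcases (Nat.prime_iff_prime_int.1 hlp).dvd_or_dvd hd with h5 | h5
      · exact key _ (by rw [p_eq]; linarith) hp1 h5
      · exact key _ hlow' hp2 h5
    linarith

end Pool.Agent.Results.MP_0ad054_nt.AllClasses
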