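import Pool.Agent.Q20.FQ.Coord
import Pool.Agent.Q20.FQ.Iso
import Pool.Agent.W65.FS.Final

/-!
# Four squares of almost primes and almost prime pairs

Q1 asks for a representation `n = x² + y² + z² + w²` of every odd `n` for which `p = x² + 3 y² + 5 z² + 7 w²` and `p - 2` are
primes. Here the six numbers `x, y, z, w, p, p - 2` are sieved simultaneously, for all large odd `n` and in every residue class.

(1) For all odd squarefree moduli `M ≤ n ^ δ` (with `3 ∣ M` if `n ≢ 1` modulo 3; otherwise one of the numbers `x, y, z, w` has to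
be divisible by 3), every primitive class modulo `M` of solutions of the equation and every `z ≤ n ^ δ`, the number of the primitive
representations of `n` in this class for which none of the six numbers is divisible by an odd prime `≤ z` not dividing `M` is the
expected number, up to a factor `1 ± ε`; the expected number is at least `n ^ (9 / 10)`.

(2) Every large odd `n` has at least `n ^ (9 / 10) / 2` representations for which the absolute values of `x, y, z, w` are of the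
form `2 ^ a 3 ^ b m` (`b = 0` if `n ≡ 1` modulo 3), `m` having at most `K` prime factors, all larger than `n ^ δ`, and for which
`p` and `p - 2` have at most `K` prime factors, all larger than `n ^ δ`.

Proof: helper48's fundamental lemma `Pool.Agent.Q48.FS.fund`, based on the distribution `Pool.Agent.W65.FS` of the starting files,
with local estimates for the six conditions (`Pool.Agent.Q20.FQ`).
-/

set_option autoImplicit false

namespace Pool.Agent.Results.MP_0ad054_nt.AlmostPrimeVariables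

open Finset
open Pool.Agent.W65.FS (Gl mem_Gl)

/-- the number `p` of the question -/
def p (X : Fin 4 → ℤ) : ℤ := X 0 ^ 2 + 3 * X 1 ^ 2 + 5 * X 2 ^ 2 + 7 * X 3 ^ 2

/-- the primitive representations of `n` as a sum of four squares in the class of `v` modulo `M` -/
def Rep (n M : ℕ) (v : Fin 4 → ℤ) : Set (Fin 4 → ℤ) :=
  {X | ∑ i, X i ^ 2 = n ∧ (∀ l : ℕ, l.Prime → ∃ i, ¬ (l : ℤ) ∣ X i) ∧ ∀ i, (M : ℤ) ∣ X i - v i}

open Classical in
/-- the vectors modulo `l` which are solutions of the equation, not zero, and for which `l` divides a coordinate, `p` or `p - 2` -/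
noncomputable def bad (n l : ℕ) : Finset (Fin 4 → ℤ) :=
  (Gl n l).filter fun c => (∃ i, (l : ℤ) ∣ c i) ∨ (l : ℤ) ∣ p c ∨ (l : ℤ) ∣ p c - 2

open Classical in
/-- the expected proportion of the representations for which no odd prime `l ≤ z`, `l ∤ M`, divides a coordinate, `p` or `p - 2` -/
noncomputable def V (n M z : ℕ) : ℝ :=
  ∏ l ∈ (Icc 3 z).filter (fun l => l.Prime ∧ ¬ l ∣ M), (1 - ((bad n l).card : ℝ) / (Gl n l).card)

/-- `m` is positive and has at most `K` prime factors (counted with multiplicity), all larger than `z` -/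
def AlmostPrime (z : ℝ) (K : ℕ) (m : ℤ) : Prop :=
  0 < m ∧ ArithmeticFunction.cardFactors m.natAbs ≤ K ∧ ∀ q : ℕ, q.Prime → (q : ℤ) ∣ m → z < q

open Pool.Agent.W65.FS Pool.Agent.Q48.FS Pool.Agent.Q20.FQ

lemma p_eq (X : Fin 4 → ℤ) : p X = pf X := rfl

lemma gc_iff (X : Fin 4 → ℤ) : gc X = 1 ↔ ∀ l : ℕ, l.Prime → ∃ i, ¬ (l : ℤ) ∣ X i := by
  constructor
  · intro h1 l hl
    by_contra h2
    push Not at h2
    have h3 := (dvd_gc l X).2 h2
    rw [h1] at h3
    exact hl.one_lt.ne' (Nat.dvd_one.1 h3)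
  · intro h1
    by_contra h2
    obtain ⟨l, hl, hd⟩ := Nat.exists_prime_and_dvd h2
    obtain ⟨i, hi⟩ := h1 l hl
    exact hi ((dvd_gc l X).1 hd i)

lemma Rep_eq (n M : ℕ) (v : Fin 4 → ℤ) : Rep n M v = ((prc n M v : Finset (Fin 4 → ℤ)) : Set (Fin 4 → ℤ)) := by
  ext X
  unfold Rep prc
  rw [Set.mem_ofPred_eq, mem_coe, mem_filter, mem_repsc]
  constructor
  · rintro ⟨h1, h2, h3⟩
    exact ⟨⟨h1, h3⟩, (gc_iff X).2 h2⟩
  · rintro ⟨⟨h1, h3⟩, h2⟩
    exact ⟨h1, (gc_iff X).1 h2, h3⟩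

lemma Rep_card (n M : ℕ) (v : Fin 4 → ℤ) : (Rep n M v).ncard = (prc n M v).card := by
  rw [Rep_eq n M v, Set.ncard_coe_finset]

lemma bad_eq (n l : ℕ) : bad n l = BC n l := by
  unfold bad BC
  rfl

lemma V_eq (n M z : ℕ) : V n M z = Vd n M z (BC n) := rfl

lemma BC_congr (l : ℕ) (X Y : Fin 4 → ℤ) (h : ∀ i, (l : ℤ) ∣ X i - Y i)
    (hX : (∃ i, (l : ℤ) ∣ X i) ∨ (l : ℤ) ∣ p X ∨ (l : ℤ) ∣ p X - 2) :
    (∃ i, (l : ℤ) ∣ Y i) ∨ (l : ℤ) ∣ p Y ∨ (l : ℤ) ∣ p Y - 2 := by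
  have hp := pf_congr l X Y h
  rcases hX with ⟨i, hi⟩ | h1 | h1
  · left
    refine ⟨i, ?_⟩
    have := dvd_sub hi (h i)
    rwa [sub_sub_cancel] at this
  · right; left
    have := dvd_sub h1 hp
    rw [p_eq] at this ⊢
    rwa [sub_sub_cancel] at this
  · right; right
    have := dvd_sub h1 hp
    rw [p_eq] at this ⊢
    have e : pf X - 2 - (pf X - pf Y) = pf Y - 2 := by ring
    rwa [e] at this

/-- the sifted set -/
lemma sift_mem (n M z : ℕ) (v X : Fin 4 → ℤ) :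
    X ∈ sift n M v z (BC n) ↔ X ∈ Rep n M v ∧ ∀ l : ℕ, l.Prime → 3 ≤ l → l ≤ z → ¬ l ∣ M →
      (∀ i, ¬ (l : ℤ) ∣ X i) ∧ ¬ (l : ℤ) ∣ p X ∧ ¬ (l : ℤ) ∣ p X - 2 := by
  rw [Rep_eq n M v, mem_coe]
  unfold sift
  rw [mem_filter]
  refine and_congr_right fun hX => ?_
  have hX' := hX
  unfold prc at hX'
  rw [mem_filter, mem_repsc] at hX'
  constructor
  · intro h l hl hl3 hlz hlM
    have h1 := h l (by rw [mem_Pr]; exact ⟨⟨hl3, hlz⟩, hl, hlM⟩)
    have h2 : ¬ ((∃ i, (l : ℤ) ∣ X i) ∨ (l : ℤ) ∣ p X ∨ (l : ℤ) ∣ p X - 2) := by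
      intro h3
      apply h1
      rw [mem_BC]
      exact ⟨red_mem n l hl X hX'.1.1 hX'.2, BC_congr l X (red l X) (red_dvd l X) h3⟩
    push Not at h2
    exact h2
  · intro h l hl hd
    rw [mem_Pr] at hl
    have h1 := h l hl.2.1 hl.1.1 hl.1.2 hl.2.2
    rw [mem_BC] at hd
    have h2 := BC_congr l (red l X) X (fun i => by
      have := red_dvd l X i
      rw [← neg_sub, dvd_neg]
      exact this) hd.2
    rcases h2 with ⟨i, h3⟩ | h3 | h3
    · exact h1.1 i h3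
    · exact h1.2.1 h3
    · exact h1.2.2 h3

lemma omega_le (δ : ℝ) (hδ : 0 < δ) (K : ℕ) (hK : 2 / δ ≤ K) (n : ℕ) (hn : 100 ≤ n) (m : ℕ) (hm0 : m ≠ 0)
    (hm7 : (m : ℝ) ≤ 7 * n) (hq : ∀ q : ℕ, q.Prime → q ∣ m → (n : ℝ) ^ δ < q) : ArithmeticFunction.cardFactors m ≤ K := by
  have hn100 : (100 : ℝ) ≤ n := by exact_mod_cast hn
  have h4 := omega_bound ((n : ℝ) ^ δ) (by positivity) m hm0 (fun q hq1 hq2 => (hq q hq1 hq2).le)
  by_contra hcon
  push Not at hcon
  have h5 : (n : ℝ) ^ (2 : ℝ) ≤ ((n : ℝ) ^ δ) ^ (ArithmeticFunction.cardFactors m) := by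
    rw [← Real.rpow_natCast, ← Real.rpow_mul (by linarith)]
    apply Real.rpow_le_rpow_of_exponent_le (by linarith)
    rw [div_le_iff₀ hδ] at hK
    have h6 : (K : ℝ) ≤ ArithmeticFunction.cardFactors m := by exact_mod_cast hcon.le
    nlinarith
  have h6 : (n : ℝ) ^ (2 : ℝ) = (n : ℝ) ^ (2 : ℕ) := by
    rw [← Real.rpow_natCast]; norm_num
  rw [h6] at h5
  nlinarith

/-- **Almost prime variables and almost prime pairs.** -/
theorem result (ε : ℝ) (hε : 0 < ε) : ∃ δ : ℝ, 0 < δ ∧ ∃ K n₀ : ℕ, ∀ n : ℕ, Odd n → n₀ ≤ n →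
    -- (1) the expected number in every class
    (∀ M : ℕ, Odd M → Squarefree M → (M : ℝ) ≤ (n : ℝ) ^ δ → (3 ∣ M ∨ n % 3 = 1) →
      ∀ v : Fin 4 → ℤ, (M : ℤ) ∣ (∑ i, v i ^ 2) - n → (∀ l : ℕ, l.Prime → l ∣ M → ∃ i, ¬ (l : ℤ) ∣ v i) →
      ∀ z : ℕ, (z : ℝ) ≤ (n : ℝ) ^ δ → 0 < V n M z ∧ (n : ℝ) ^ (9 / 10 : ℝ) ≤ (Rep n M v).ncard * V n M z ∧
        |(({X | X ∈ Rep n M v ∧ ∀ l : ℕ, l.Prime → 3 ≤ l → l ≤ z → ¬ l ∣ M →
          (∀ i, ¬ (l : ℤ) ∣ X i) ∧ ¬ (l : ℤ) ∣ p X ∧ ¬ (l : ℤ) ∣ p X - 2} : Set (Fin 4 → ℤ)).ncard : ℝ) -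
          (Rep n M v).ncard * V n M z| ≤ ε * ((Rep n M v).ncard * V n M z)) ∧
    -- (2) almost prime variables and almost prime pairs
    (n : ℝ) ^ (9 / 10 : ℝ) / 2 ≤ ({X : Fin 4 → ℤ | ∑ i, X i ^ 2 = n ∧ (∀ l : ℕ, l.Prime → ∃ i, ¬ (l : ℤ) ∣ X i) ∧
      AlmostPrime ((n : ℝ) ^ δ) K (p X) ∧ AlmostPrime ((n : ℝ) ^ δ) K (p X - 2) ∧
      ∀ i, ∃ a b m : ℕ, |X i| = 2 ^ a * 3 ^ b * m ∧ (n % 3 = 1 → b = 0) ∧ AlmostPrime ((n : ℝ) ^ δ) K m} : Set (Fin 4 → ℤ)).ncard := by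
  classical
  obtain ⟨ε', hε'⟩ : ∃ ε' : ℝ, ε' = min ε (1 / 2) := ⟨_, rfl⟩
  have hε'0 : 0 < ε' := by rw [hε']; positivity
  have hε'1 : ε' ≤ ε := by rw [hε']; exact min_le_left _ _
  have hε'2 : ε' ≤ 1 / 2 := by rw [hε']; exact min_le_right _ _
  obtain ⟨δ, hδ, n₀, h⟩ := coordMain ε' hε'0
  obtain ⟨K, hK⟩ := exists_nat_ge (2 / δ)
  have hlarge : ∀ᶠ n : ℕ in Filter.atTop, (100 : ℝ) ≤ (n : ℝ) ^ δ :=
    ((tendsto_rpow_atTop hδ).comp tendsto_natCast_atTop_atTop).eventually_ge_atTop _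
  obtain ⟨n₁, hn₁⟩ := hlarge.exists_forall_of_atTop
  refine ⟨δ, hδ, K, n₀ + n₁ + 100, ?_⟩
  intro n hn hn0
  have hn1 : (1 : ℝ) ≤ n := by exact_mod_cast hn.pos
  have hn100 : (100 : ℝ) ≤ n := by exact_mod_cast (show 100 ≤ n by omega)
  have hnr0 : (0 : ℝ) < n := by linarith
  have hδ100 := hn₁ n (by omega)
  have hset : ∀ (M : ℕ) (v : Fin 4 → ℤ) (z : ℕ), ({X | X ∈ Rep n M v ∧ ∀ l : ℕ, l.Prime → 3 ≤ l → l ≤ z → ¬ l ∣ M →
          (∀ i, ¬ (l : ℤ) ∣ X i) ∧ ¬ (l : ℤ) ∣ p X ∧ ¬ (l : ℤ) ∣ p X - 2} : Set (Fin 4 → ℤ)) =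
      ((sift n M v z (BC n) : Finset (Fin 4 → ℤ)) : Set (Fin 4 → ℤ)) := by
    intro M v z
    ext X
    rw [mem_coe, sift_mem n M z v X]
    rfl
  have hfirst : ∀ M : ℕ, Odd M → Squarefree M → (M : ℝ) ≤ (n : ℝ) ^ δ → (3 ∣ M ∨ n % 3 = 1) →
      ∀ v : Fin 4 → ℤ, (M : ℤ) ∣ (∑ i, v i ^ 2) - n → (∀ l : ℕ, l.Prime → l ∣ M → ∃ i, ¬ (l : ℤ) ∣ v i) →
      ∀ z : ℕ, (z : ℝ) ≤ (n : ℝ) ^ δ → 0 < V n M z ∧ (n : ℝ) ^ (9 / 10 : ℝ) ≤ (Rep n M v).ncard * V n M z ∧
        |(({X | X ∈ Rep n M v ∧ ∀ l : ℕ, l.Prime → 3 ≤ l → l ≤ z → ¬ l ∣ M →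
          (∀ i, ¬ (l : ℤ) ∣ X i) ∧ ¬ (l : ℤ) ∣ p X ∧ ¬ (l : ℤ) ∣ p X - 2} : Set (Fin 4 → ℤ)).ncard : ℝ) -
          (Rep n M v).ncard * V n M z| ≤ ε' * ((Rep n M v).ncard * V n M z) := by
    intro M hMo hMs hMn h3 v hv hv2 z hz
    rw [hset, Set.ncard_coe_finset, Rep_card n M v, V_eq]
    exact h n M z hn (by omega) hMo.pos hMo hMs h3 hMn hz v ⟨hv, hv2⟩
  refine ⟨?_, ?_⟩
  · intro M hMo hMs hMn h3 v hv hv2 z hz
    obtain ⟨g1, g2, g3⟩ := hfirst M hMo hMs hMn h3 v hv hv2 z hz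
    refine ⟨g1, g2, g3.trans ?_⟩
    apply mul_le_mul_of_nonneg_right hε'1
    positivity
  · obtain ⟨z, hz⟩ : ∃ z : ℕ, z = ⌊(n : ℝ) ^ δ⌋₊ := ⟨_, rfl⟩
    have hzle : (z : ℝ) ≤ (n : ℝ) ^ δ := by
      rw [hz]
      exact Nat.floor_le (Real.rpow_nonneg hnr0.le _)
    -- the choice of the modulus
    obtain ⟨M, v, hMo, hMs, hM3, hM3', hv, hv2, hMz, hvp⟩ : ∃ (M : ℕ) (v : Fin 4 → ℤ), Odd M ∧ Squarefree M ∧
        (M = 1 ∨ M = 3) ∧ (M = 3 ∨ n % 3 = 1) ∧ (M : ℤ) ∣ (∑ i, v i ^ 2) - n ∧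
        (∀ l : ℕ, l.Prime → l ∣ M → ∃ i, ¬ (l : ℤ) ∣ v i) ∧ (n % 3 = 1 → M = 1) ∧
        (M = 3 → ¬ (3 : ℤ) ∣ p v ∧ ¬ (3 : ℤ) ∣ p v - 2) := by
      by_cases h31 : n % 3 = 1
      · refine ⟨1, 0, odd_one, squarefree_one, Or.inl rfl, Or.inr h31, by simp, ?_, fun _ => rfl, fun h => absurd h (by norm_num)⟩
        intro l hl hl1
        exact absurd (Nat.dvd_one.1 hl1) hl.one_lt.ne'
      · obtain ⟨c, hc1, hc2⟩ := loc_int n 3 Nat.prime_three (by norm_num) 1
        have hc3 := (mem_Gl n 3 c).1 hc1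
        refine ⟨3, c, by decide, Nat.prime_three.squarefree, Or.inr rfl, Or.inl rfl, hc3.2.1, ?_, fun h => absurd h h31, fun _ => ?_⟩
        · intro l hl hl3
          rw [(Nat.prime_dvd_prime_iff_eq hl Nat.prime_three).1 hl3]
          exact hc3.2.2
        · rw [p_eq]
          have h3 : ((3 : ℕ) : ℤ) = 3 := rfl
          rw [h3] at hc2
          constructor <;> omega
    have hMle : (M : ℝ) ≤ (n : ℝ) ^ δ := by
      rcases hM3 with h1 | h1 <;> rw [h1] <;> norm_num <;> linarith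
    obtain ⟨g1, g2, g3⟩ := hfirst M hMo hMs hMle (by
      rcases hM3' with h1 | h1
      · left
        rw [h1]
      · right
        exact h1) v hv hv2 z hzle
    have hlow : (n : ℝ) ^ (9 / 10 : ℝ) / 2 ≤ (({X | X ∈ Rep n M v ∧ ∀ l : ℕ, l.Prime → 3 ≤ l → l ≤ z → ¬ l ∣ M →
          (∀ i, ¬ (l : ℤ) ∣ X i) ∧ ¬ (l : ℤ) ∣ p X ∧ ¬ (l : ℤ) ∣ p X - 2} : Set (Fin 4 → ℤ)).ncard : ℝ) := by
      have h1 := (abs_le.1 g3).1
      have h2 : ε' * ((Rep n M v).ncard * V n M z) ≤ 1 / 2 * ((Rep n M v).ncard * V n M z) :=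
        mul_le_mul_of_nonneg_right hε'2 (by positivity)
      linarith
    refine hlow.trans ?_
    rw [Nat.cast_le]
    refine Set.ncard_le_ncard ?_ ?_
    · rintro X ⟨hX, hl⟩
      have hXn : ∑ i, X i ^ 2 = n := hX.1
      have hlowp := pf_lower n X hXn
      have hupp := pf_upper n X hXn
      have hodd := pf_odd n hn X hXn
      have hnz : (100 : ℤ) ≤ n := by exact_mod_cast (show 100 ≤ n by omega)
      have hbig : ∀ q : ℕ, q.Prime → q ≠ 2 → (¬ q ∣ M) →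
          ((∃ i, (q : ℤ) ∣ X i) ∨ (q : ℤ) ∣ p X ∨ (q : ℤ) ∣ p X - 2) → (n : ℝ) ^ δ < q := by
        intro q hq hq2 hqM hd
        by_contra hcon
        push Not at hcon
        have hqz : q ≤ z := by rw [hz]; exact Nat.le_floor hcon
        have h1 := hl q hq (by have := hq.two_le; omega) hqz hqM
        rcases hd with ⟨i, hd⟩ | hd | hd
        · exact h1.1 i hd
        · exact h1.2.1 hd
        · exact h1.2.2 hd
      have hM3p : ∀ q : ℕ, q.Prime → q ∣ M → q = 3 ∧ M = 3 := by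
        intro q hq hqM
        rcases hM3 with h1 | h1
        · rw [h1] at hqM
          exact absurd (Nat.dvd_one.1 hqM) hq.one_lt.ne'
        · rw [h1] at hqM
          exact ⟨(Nat.prime_dvd_prime_iff_eq hq Nat.prime_three).1 hqM, h1⟩
      have hpq : ∀ q : ℕ, q.Prime → ((q : ℤ) ∣ p X ∨ (q : ℤ) ∣ p X - 2) → (n : ℝ) ^ δ < q := by
        intro q hq hd
        have hq2 : q ≠ 2 := by
          rintro rfl
          have h3 : ((2 : ℕ) : ℤ) = 2 := rfl
          rw [p_eq, h3] at hd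
          omega
        have hqM : ¬ q ∣ M := by
          intro hqM
          obtain ⟨h1, h2⟩ := hM3p q hq hqM
          obtain ⟨h4, h5⟩ := hvp h2
          have h6 := pf_congr 3 X v (fun i => by
            have := hX.2.2 i
            rwa [h2] at this)
          subst h1
          have h3 : ((3 : ℕ) : ℤ) = 3 := rfl
          rw [p_eq] at h4 h5 hd
          rw [h3] at h6 hd
          omega
        exact hbig q hq hq2 hqM (Or.inr hd)
      have hap : ∀ m : ℤ, 0 < m → m ≤ 7 * n → (∀ q : ℕ, q.Prime → (q : ℤ) ∣ m → (n : ℝ) ^ δ < q) →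
          AlmostPrime ((n : ℝ) ^ δ) K m := by
        intro m hm hm7 hq
        refine ⟨hm, ?_, hq⟩
        apply omega_le δ hδ K hK n (by omega) _ (Int.natAbs_ne_zero.2 hm.ne')
        · have h5 : ((m.natAbs : ℕ) : ℤ) = m := Int.natAbs_of_nonneg hm.le
          have h6 : ((m.natAbs : ℕ) : ℤ) ≤ 7 * n := by rw [h5]; exact hm7
          exact_mod_cast h6
        · intro q hq1 hq2
          exact hq q hq1 (Int.natCast_dvd.2 hq2)
      refine ⟨hX.1, hX.2.1, hap _ (by rw [p_eq]; linarith) hupp (fun q hq hd => hpq q hq (Or.inl hd)),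
        hap _ (by rw [p_eq]; linarith) (by rw [p_eq]; linarith) (fun q hq hd => hpq q hq (Or.inr hd)), fun i => ?_⟩
      -- the coordinates
      have hXi0 : X i ≠ 0 := by
        intro h0
        have h5 : (5 : ℕ) ≤ z := by
          rw [hz]
          apply Nat.le_floor
          norm_num
          linarith
        have h5M : ¬ 5 ∣ M := by
          rcases hM3 with h1 | h1 <;> rw [h1] <;> norm_num
        apply (hl 5 (by norm_num) (by norm_num) h5 h5M).1 i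
        rw [h0]
        exact dvd_zero _
      have hA0 : (X i).natAbs ≠ 0 := Int.natAbs_ne_zero.2 hXi0
      obtain ⟨a, m1, hm1, e1⟩ := Nat.exists_eq_pow_mul_and_not_dvd hA0 2 (by norm_num)
      have hm10 : m1 ≠ 0 := by
        rintro rfl
        exact hm1 (dvd_zero _)
      obtain ⟨b, m, hm, e2⟩ := Nat.exists_eq_pow_mul_and_not_dvd hm10 3 (by norm_num)
      have hm0 : m ≠ 0 := by
        rintro rfl
        exact hm (dvd_zero _)
      have hmX : m ∣ (X i).natAbs := by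
        rw [e1, e2]
        exact (Dvd.intro_left _ rfl : m ∣ 3 ^ b * m).mul_left _
      have h2m : ¬ 2 ∣ m := fun h2 => hm1 (by rw [e2]; exact h2.mul_left _)
      refine ⟨a, b, m, ?_, ?_, ?_⟩
      · rw [Int.abs_eq_natAbs, e1, e2]
        push_cast
        ring
      · intro h31
        by_contra hb
        have hM1 := hMz h31
        have h3z : (3 : ℕ) ≤ z := by
          rw [hz]
          apply Nat.le_floor
          norm_num
          linarith
        apply (hl 3 Nat.prime_three le_rfl h3z (by rw [hM1]; norm_num)).1 i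
        rw [Int.natCast_dvd, e1, e2]
        exact ((dvd_pow_self 3 hb).mul_right _).mul_left _
      · apply hap
        · exact_mod_cast Nat.pos_of_ne_zero hm0
        · have h5 : (m : ℤ) ≤ (X i).natAbs := by exact_mod_cast Nat.le_of_dvd (Nat.pos_of_ne_zero hA0) hmX
          have h6 : X i ^ 2 ≤ n := by
            rw [← hXn]
            exact single_le_sum (f := fun i => X i ^ 2) (fun j _ => sq_nonneg _) (mem_univ i)
          have h7 : ((X i).natAbs : ℤ) ≤ X i ^ 2 := by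
            rw [← Int.natAbs_sq, sq]
            have h8 : (1 : ℤ) ≤ (X i).natAbs := by exact_mod_cast Nat.pos_of_ne_zero hA0
            nlinarith
          linarith
        · intro q hq hqd
          have hqm : q ∣ m := by exact_mod_cast hqd
          have hq2 : q ≠ 2 := by
            rintro rfl
            exact h2m hqm
          have hq3 : q ≠ 3 := by
            rintro rfl
            exact hm hqm
          apply hbig q hq hq2
          · intro hqM
            exact hq3 (hM3p q hq hqM).1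
          · left
            exact ⟨i, Int.natCast_dvd.2 (hqm.trans hmX)⟩
    · have hfin : (Set.Finite {X : Fin 4 → ℤ | ∑ i, X i ^ 2 = n}) := by
        have : {X : Fin 4 → ℤ | ∑ i, X i ^ 2 = n} ⊆ ((reps n : Finset (Fin 4 → ℤ)) : Set (Fin 4 → ℤ)) := by
          intro X hX
          rw [mem_coe, mem_reps]
          exact hX
        exact (Finset.finite_toSet _).subset this
      exact hfin.subset fun X hX => hX.1

end Pool.Agent.Results.MP_0ad054_nt.AlmostPrimeVariables
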