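import Pool.Agent.Q20.FQ.Iso
import Pool.Agent.W65.FS.Final

/-!
# Four squares and isolated almost prime pairs

Q1 asks for a representation `n = x² + y² + z² + w²` of every odd `n` for which `p = x² + 3 y² + 5 z² + 7 w²` and `p - 2` are
primes. For all large odd `n` there are at least `n ^ (9 / 10) / 2` representations for which `p` and `p - 2` are almost primes
(at most `K` prime factors, all larger than `n ^ δ`) and ISOLATED: all the other integers at distance at most `κ rankin(n)` of `p`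
have a prime factor `≤ log n`, where `rankin(n) = log n log₂ n log₄ n / (log₃ n) ^ 2`.

More generally this is true of `p + t_1, ..., p + t_k` in place of `p`, `p - 2`, for every admissible pattern of even numbers
`|t_j| ≤ κ rankin(n)`, `k` fixed: exactly at the places of the pattern there are almost primes, and all the other integers in
the window around `p` have a small prime factor. For instance every even `τ` with `|τ| ≤ κ rankin(n)` is a gap between consecutive
such almost primes `p`, `p + τ` at the representations of `n`.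

Proof: the Rankin covering with holes of helper46 (`Pool.Agent.Q46.IP.cover`) gives a modulus and a class `b` modulo its prime
factors; a point of the quadric `∑ v_i² = n` with `p(v) = b` exists modulo every odd prime (`Pool.Agent.Q20.FQ.loc`, sums of the
quadratic character over a line chosen such that one of them is positive), and the representations in the class of `v` are sieved
(helper48's fundamental lemma `Pool.Agent.Q48.FS.fund`, based on the distribution `Pool.Agent.W65.FS` of the starting files).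
-/

set_option autoImplicit false

namespace Pool.Agent.Results.MP_0ad054_nt.IsolatedPatterns

open Finset

/-- the number `p` of the question -/
def p (X : Fin 4 → ℤ) : ℤ := X 0 ^ 2 + 3 * X 1 ^ 2 + 5 * X 2 ^ 2 + 7 * X 3 ^ 2

/-- Rankin's function `log M log₂ M log₄ M / (log₃ M) ^ 2` (iterated logarithms) -/
noncomputable def rankin (M : ℝ) : ℝ :=
  Real.log M * Real.log (Real.log M) * Real.log (Real.log (Real.log (Real.log M))) /
    (Real.log (Real.log (Real.log M))) ^ 2

/-- `m` is positive and has at most `K` prime factors (counted with multiplicity), all larger than `z` -/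
def AlmostPrime (z : ℝ) (K : ℕ) (m : ℤ) : Prop :=
  0 < m ∧ ArithmeticFunction.cardFactors m.natAbs ≤ K ∧ ∀ q : ℕ, q.Prime → (q : ℤ) ∣ m → z < q

/-- **Isolated patterns of almost primes at the representations of `n`.** For every `k ≥ 1` there are `κ, δ > 0` and `K` such that
for all large odd `n` and all admissible `k`-tuples `t` of even numbers with `|t_j| ≤ κ rankin(n)` there are at least
`n ^ (9 / 10) / 2` primitive representations `X` of `n` as a sum of four squares for which the numbers `p X + t_j` are almost primes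
and every other integer `p X + i`, `|i| ≤ κ rankin(n)`, has a prime factor `≤ log n`. -/
theorem result (k : ℕ) (hk : 1 ≤ k) : ∃ κ δ : ℝ, 0 < κ ∧ 0 < δ ∧ ∃ K n₀ : ℕ, ∀ n : ℕ, Odd n → n₀ ≤ n →
    ∀ t : Fin k → ℤ, (∀ j, Even (t j) ∧ |(t j : ℝ)| ≤ κ * rankin n) →
    (∀ q : ℕ, q.Prime → ∃ a : ℤ, ∀ j, ¬ (q : ℤ) ∣ a + t j) →
    (n : ℝ) ^ (9 / 10 : ℝ) / 2 ≤ ({X : Fin 4 → ℤ | ∑ i, X i ^ 2 = n ∧ (∀ l : ℕ, l.Prime → ∃ i, ¬ (l : ℤ) ∣ X i) ∧
      (∀ j, AlmostPrime ((n : ℝ) ^ δ) K (p X + t j)) ∧
      ∀ i : ℤ, |(i : ℝ)| ≤ κ * rankin n → (∀ j, i ≠ t j) →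
        ∃ q : ℕ, q.Prime ∧ (q : ℝ) ≤ Real.log n ∧ (q : ℤ) ∣ p X + i}.ncard : ℝ) := by
  classical
  obtain ⟨κ, hκ, δ, hδ, n₀, h⟩ := Pool.Agent.Q20.FQ.iso k hk
  obtain ⟨K, hK⟩ := exists_nat_ge (2 / δ)
  have hsmall : ∀ᶠ n : ℕ in Filter.atTop, κ * rankin n ≤ (n : ℝ) / 2 := by
    have h1 : ∀ᶠ y : ℝ in Filter.atTop, κ * Pool.Agent.Q46.IP.GG y ≤ y / 2 := by
      obtain ⟨p₁, -, -, hp2⟩ := Pool.Agent.Q46.IP.evI (cc := 1) (ε := 1) one_pos one_pos hκ 0
      have h2 := (isLittleO_log_rpow_atTop (show (0 : ℝ) < 1 / 4 by norm_num)).def (show (0 : ℝ) < 1 by norm_num)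
      have h3 := (tendsto_rpow_atTop (show (0 : ℝ) < 1 / 2 by norm_num)).eventually_ge_atTop (2 : ℝ)
      filter_upwards [Filter.eventually_ge_atTop ((p₁ : ℕ) : ℝ), h2, h3, Filter.eventually_ge_atTop (1 : ℝ)] with y e1 e2 e3 e4
      have hy0 : 0 < y := by linarith
      have hl0 : 0 ≤ Real.log y := Real.log_nonneg e4
      rw [one_mul, Real.norm_eq_abs, Real.norm_eq_abs, abs_of_nonneg hl0, abs_of_nonneg (by positivity)] at e2
      have e5 : (Real.log y) ^ 2 ≤ y ^ (1 / 2 : ℝ) := by
        calc (Real.log y) ^ 2 ≤ (y ^ (1 / 4 : ℝ)) ^ 2 := pow_le_pow_left₀ hl0 e2 2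
          _ = y ^ (1 / 2 : ℝ) := by
            rw [← Real.rpow_natCast, ← Real.rpow_mul hy0.le]
            norm_num
      have e6 : y ^ (1 / 2 : ℝ) * y ^ (1 / 2 : ℝ) = y := by
        rw [← Real.rpow_add hy0]
        norm_num
      have e7 := hp2 y e1
      nlinarith
    have h4 := (tendsto_natCast_atTop_atTop (R := ℝ)).eventually h1
    exact h4
  obtain ⟨n₁, hn₁⟩ := hsmall.exists_forall_of_atTop
  refine ⟨κ, δ, hκ, hδ, K, n₀ + n₁ + 100, ?_⟩
  intro n hn hn0 t ht hadm
  have hn1 : (1 : ℝ) ≤ n := by exact_mod_cast hn.pos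
  have hn100 : (100 : ℝ) ≤ n := by exact_mod_cast (show 100 ≤ n by omega)
  have hnr0 : (0 : ℝ) < n := by linarith
  have hbd := hn₁ n (by omega)
  obtain ⟨G, hG1, hG2⟩ := h n hn (by omega) t ht hadm
  refine hG1.trans ?_
  rw [Nat.cast_le, ← Set.ncard_coe_finset]
  refine Set.ncard_le_ncard ?_ ?_
  · intro X hX
    obtain ⟨h1, h2, h3, h4⟩ := hG2 X (mem_coe.1 hX)
    refine ⟨h1, ?_, ?_, h4⟩
    · intro l hl
      by_contra h5
      push Not at h5
      have h6 := (Pool.Agent.W65.FS.dvd_gc l X).2 h5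
      rw [h2] at h6
      exact hl.one_lt.ne' (Nat.dvd_one.1 h6)
    · intro j
      have hlow := Pool.Agent.W65.FS.pf_lower n X h1
      have hup := Pool.Agent.W65.FS.pf_upper n X h1
      have hlow' : (n : ℝ) ≤ (Pool.Agent.W65.FS.pf X : ℝ) := by exact_mod_cast hlow
      have hup' : (Pool.Agent.W65.FS.pf X : ℝ) ≤ 7 * n := by exact_mod_cast hup
      have htj := abs_le.1 (ht j).2
      have hpos : (0 : ℝ) < ((p X + t j : ℤ) : ℝ) := by
        show (0 : ℝ) < ((Pool.Agent.W65.FS.pf X + t j : ℤ) : ℝ)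
        push_cast
        linarith [htj.1]
      have hpos' : 0 < p X + t j := by exact_mod_cast hpos
      have hle : ((p X + t j : ℤ) : ℝ) ≤ 8 * n := by
        show ((Pool.Agent.W65.FS.pf X + t j : ℤ) : ℝ) ≤ 8 * n
        push_cast
        linarith [htj.2]
      have hq : ∀ q : ℕ, q.Prime → (q : ℤ) ∣ p X + t j → (n : ℝ) ^ δ < q := h3 j
      refine ⟨hpos', ?_, hq⟩
      have hm0 : (p X + t j).natAbs ≠ 0 := Int.natAbs_ne_zero.2 hpos'.ne'
      have hm8 : (((p X + t j).natAbs : ℕ) : ℝ) ≤ 8 * n := by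
        have h5 : (((p X + t j).natAbs : ℕ) : ℤ) = p X + t j := Int.natAbs_of_nonneg hpos'.le
        have h6 : (((p X + t j).natAbs : ℕ) : ℝ) = ((p X + t j : ℤ) : ℝ) := by rw [← h5]; simp
        rw [h6]
        exact hle
      have h5 := Pool.Agent.W65.FS.omega_bound ((n : ℝ) ^ δ) (by positivity) _ hm0
        (fun q hq1 hq2 => (hq q hq1 (Int.natCast_dvd.2 hq2)).le)
      by_contra hcon
      push Not at hcon
      have h6 : (n : ℝ) ^ (2 : ℝ) ≤ ((n : ℝ) ^ δ) ^ (ArithmeticFunction.cardFactors (p X + t j).natAbs) := by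
        rw [← Real.rpow_natCast, ← Real.rpow_mul hnr0.le]
        apply Real.rpow_le_rpow_of_exponent_le hn1
        rw [div_le_iff₀ hδ] at hK
        have h7 : (K : ℝ) ≤ ArithmeticFunction.cardFactors (p X + t j).natAbs := by exact_mod_cast hcon.le
        nlinarith
      have h7 : (n : ℝ) ^ (2 : ℝ) = (n : ℝ) ^ (2 : ℕ) := by
        rw [← Real.rpow_natCast]; norm_num
      rw [h7] at h6
      nlinarith
  · have hfin : (Set.Finite {X : Fin 4 → ℤ | ∑ i, X i ^ 2 = n}) := by
      have : {X : Fin 4 → ℤ | ∑ i, X i ^ 2 = n} ⊆ ((Pool.Agent.W65.FS.reps n : Finset (Fin 4 → ℤ)) : Set (Fin 4 → ℤ)) := by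
        intro X hX
        rw [mem_coe, Pool.Agent.W65.FS.mem_reps]
        exact hX
      exact (Finset.finite_toSet _).subset this
    exact hfin.subset fun X hX => hX.1

end Pool.Agent.Results.MP_0ad054_nt.IsolatedPatterns
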