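import Pool.Agent.Q234.StQ
import Pool.Agent.Q234.TQ
import Pool.Agent.Q234.FV

/-!
# Almost all odd `n`: `p + h₁` and `p - 2 + h₂` prime for values `p` of `x² + 3 y² + 5 z² + 7 w²`, almost all pairs

Q1 asks for a representation `n = x² + y² + z² + w²` of every odd `n` for which `p = x² + 3 y² + 5 z² + 7 w²` and `p - 2`
are primes. It is shown that for all odd `n` up to `X` with at most `X / log ^ A X` exceptions the numbers `p` take at
least `n / log ^ B n` different values, and that for almost all pairs of shifts `(h₁, h₂)` in every pair of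
residue classes modulo `M`, the product of the primes up to `y`, where `y` is of the order of magnitude `log log n`,
the numbers `p + h₁`, `p - 2 + h₂` are both prime for the expected number of these values `p`, given the number of the
values for which both are prime to `M`.
-/

set_option autoImplicit false

open Finset

namespace Pool.Agent.Results.MP_0ad054_nt.ShiftPairs

/-- The product of `1 - 1/q` over the primes `q ≤ y`. -/
noncomputable def V (y : ℕ) : ℝ := ∏ q ∈ (Icc 1 y).filter Nat.Prime, (1 - 1 / (q : ℝ))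

open Classical in
/-- The different values `p = x² + 3 y² + 5 z² + 7 w²` at the representations `n = x² + y² + z² + w²` of `n` as a sum of
four squares of integers. -/
noncomputable def Val (n : ℕ) : Finset ℕ := (range (7 * n + 1)).filter (fun p => ∃ x y z w : ℤ,
  (n : ℤ) = x ^ 2 + y ^ 2 + z ^ 2 + w ^ 2 ∧ (p : ℤ) = x ^ 2 + 3 * y ^ 2 + 5 * z ^ 2 + 7 * w ^ 2)

open Classical in
/-- The `p` in `Val n` for which `p + h 0` and `p - 2 + h 1` are prime. -/
noncomputable def good (n : ℕ) (h : Fin 2 → ℕ) : Finset ℕ :=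
  (Val n).filter (fun p => (p + h 0).Prime ∧ (p - 2 + h 1).Prime)

open Classical in
/-- The `p` in `Val n` for which `p + b 0` and `p - 2 + b 1` are prime to `M`. -/
noncomputable def loc (n M : ℕ) (b : Fin 2 → ℕ) : Finset ℕ :=
  (Val n).filter (fun p => (p + b 0).Coprime M ∧ (p - 2 + b 1).Coprime M)

/-- the two sequences -/
def F (b : Fin 2 → ℕ) : Fin 2 → ℕ → ℕ := ![fun p => p + b 0, fun p => p - 2 + b 1]

theorem F_inj (b : Fin 2 → ℕ) (i : Fin 2) (J : Finset ℕ) (hJ : ∀ q ∈ J, 2 ≤ q) : Set.InjOn (F b i) J := by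
  intro a ha c hc hac
  rw [mem_coe] at ha hc
  have h1 := hJ a ha
  have h2 := hJ c hc
  fin_cases i
  · have h5 : a + b 0 = c + b 0 := hac
    omega
  · have h5 : a - 2 + b 1 = c - 2 + b 1 := hac
    omega

open Classical in
theorem Val_le {n p : ℕ} (h : p ∈ Val n) : n ≤ p ∧ p ≤ 7 * n := by
  unfold Val at h
  rw [mem_filter, mem_range] at h
  obtain ⟨h1, x, y, z, w, h2, h3⟩ := h
  refine ⟨?_, by omega⟩
  have : (n : ℤ) ≤ p := by
    rw [h2, h3]
    nlinarith [sq_nonneg x, sq_nonneg y, sq_nonneg z, sq_nonneg w]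
  exact_mod_cast this

theorem cop {y v : ℕ} (hy : 2 ≤ y) (hv : v.Coprime (primorial y)) : 1 ≤ v ∧ ∀ l : ℕ, l.Prime → l ≤ y → ¬ l ∣ v := by
  have h2 : ∀ l : ℕ, l.Prime → l ≤ y → ¬ l ∣ v := by
    intro l hl hly hd
    have h3 := Nat.dvd_gcd hd (hl.dvd_primorial_iff.2 hly)
    rw [Nat.coprime_iff_gcd_eq_one.1 hv] at h3
    exact hl.one_lt.ne' (Nat.dvd_one.1 h3)
  refine ⟨?_, h2⟩
  by_contra h0
  exact h2 2 Nat.prime_two hy (by
    have : v = 0 := by omega
    rw [this]
    exact dvd_zero 2)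

open Classical in
/-- (1) For every `A` there is `B` such that for all large `X` all odd `n ≤ X` with at most `X / log ^ A X` exceptions
are such that `Val n` has at least `n / log ^ B n` elements. (2) For all `A`, `C` and `0 < ε ≤ 1` there is `K₀` such
that for every `K₁` and every large `n`, every `y` between `K₀ log log n` and `K₁ log log n`, with `M` the product of the
primes `≤ y`, all `b 0, b 1 ≤ n` and all windows `(g₀ i, g₀ i + G i]` with `M (g₀ i + G i) ≤ n`,
`G i ≥ n / (M log ^ C n)`, `i = 0, 1`: if `loc n M b` has at least `n / log ^ A n` elements, then for all but at most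
`ε (G 0) (G 1)` of the pairs `g`, `1 ≤ g i ≤ G i`, with `h_i = b i + M (g₀ i + g i)`, for at least
`(1 - ε) #(loc n M b) / (V y log n) ^ 2` of the `p` in `Val n` both `p + h_0` and `p - 2 + h_1` are prime. (3) For all
`n` and `M ≥ 1` the sum of `#(loc n M b)` over the pairs `b` with `1 ≤ b 0, b 1 ≤ M` is `φ(M)² #(Val n)`. -/
theorem result : (∀ A : ℕ, ∃ B X₀ : ℕ, ∀ X : ℕ, X₀ ≤ X →
      (((Icc 1 X).filter (fun n : ℕ => Odd n ∧ ¬ ((n : ℝ) ≤ (Val n).card * Real.log n ^ B))).card : ℝ) ≤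
        X / Real.log X ^ A) ∧
    (∀ (A C : ℕ) (ε : ℝ), 0 < ε → ε ≤ 1 → ∃ K₀ : ℕ, ∀ K₁ : ℕ, ∃ n₀ : ℕ, ∀ n : ℕ, n₀ ≤ n →
    ∀ y : ℕ, K₀ * Real.log (Real.log n) ≤ y → y ≤ K₁ * Real.log (Real.log n) →
    ∀ b g₀ G : Fin 2 → ℕ, (∀ i, b i ≤ n) → (∀ i, primorial y * (g₀ i + G i) ≤ n) →
      (∀ i, (n : ℝ) ≤ primorial y * G i * Real.log n ^ C) →
      (n : ℝ) ≤ (loc n (primorial y) b).card * Real.log n ^ A →
      (((Fintype.piFinset fun i => Icc 1 (G i)).filter (fun g =>
        ((good n (fun i => b i + primorial y * (g₀ i + g i))).card : ℝ) <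
        (1 - ε) * ((loc n (primorial y) b).card / (V y * Real.log n) ^ 2))).card : ℝ) ≤ ε * (G 0 * G 1)) ∧
    (∀ n M : ℕ, 1 ≤ M → ∑ b ∈ Fintype.piFinset (fun _ : Fin 2 => Icc 1 M), (loc n M b).card =
      M.totient ^ 2 * (Val n).card) := by
  refine ⟨?_, ?_, ?_⟩
  · intro A
    obtain ⟨X₀, h⟩ := Pool.Agent.Q234.FV.val_card A
    exact ⟨6 * A + 40, X₀, fun X hX => h X hX⟩
  · intro A C ε hε hε1
    obtain ⟨K₀', hK₀'⟩ := Pool.Agent.Q234.StQ.stepQ 2 C 2 (fun _ => 1) (fun _ => Or.inl rfl) A ε hε hε1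
    refine ⟨max K₀' 2, fun K₁ => ?_⟩
    obtain ⟨n2', hn2'⟩ := hK₀' K₁
    obtain ⟨n3, hn3⟩ := Pool.Agent.H373R2.T7.ev_L' (max 6 (Real.exp 1))
    refine ⟨max n2' (max n3 2), fun n hn y hy1 hy2 b g₀ G hb hg1 hg2 hloc => ?_⟩
    have b2' : n2' ≤ n := le_trans (le_max_left _ _) hn
    have b3 : n3 ≤ n := le_trans (le_trans (le_max_left _ _) (le_max_right _ _)) hn
    have b5 : 2 ≤ n := le_trans (le_trans (le_max_right _ _) (le_max_right _ _)) hn
    have hL6 : 6 ≤ Real.log n := (le_max_left _ _).trans (hn3 n b3)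
    have hLe : Real.exp 1 ≤ Real.log n := (le_max_right _ _).trans (hn3 n b3)
    have hlL : 1 ≤ Real.log (Real.log n) := by
      rw [← Real.log_exp 1]
      exact Real.log_le_log (Real.exp_pos 1) hLe
    have hlL0 : 0 ≤ Real.log (Real.log n) := by linarith
    have hy1a : (K₀' : ℝ) * Real.log (Real.log n) ≤ y :=
      le_trans (mul_le_mul_of_nonneg_right (by exact_mod_cast le_max_left _ _) hlL0) hy1
    have hy2a : 2 ≤ y := by
      have h1 : (2 : ℝ) ≤ y := by
        refine le_trans ?_ hy1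
        have h2 : (2 : ℝ) ≤ ((max K₀' 2 : ℕ) : ℝ) := by exact_mod_cast le_max_right _ _
        nlinarith
      exact_mod_cast h1
    obtain ⟨J, hJd⟩ : ∃ J, J = loc n (primorial y) b := ⟨_, rfl⟩
    rw [← hJd] at hloc ⊢
    have hJm : ∀ q ∈ J, (n ≤ q ∧ q ≤ 7 * n) ∧ (q + b 0).Coprime (primorial y) ∧
        (q - 2 + b 1).Coprime (primorial y) := by
      intro q hq
      rw [hJd] at hq
      unfold loc at hq
      rw [mem_filter] at hq
      exact ⟨Val_le hq.1, hq.2⟩
    have hJ2 : ∀ q ∈ J, 2 ≤ q := fun q hq => b5.trans (hJm q hq).1.1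
    have h1 := hn2' n b2' y hy1a hy2 J hloc (F b) (fun i => F_inj b i J hJ2) (by
      intro i q hq
      have hq1 := hJm q hq
      have hn1 : (1 : ℝ) ≤ n := by exact_mod_cast (by omega : 1 ≤ n)
      have h36 : 36 ≤ Real.log n ^ 2 := by nlinarith
      have hsz : 8 * (n : ℝ) ≤ n * Real.log n ^ 2 := by nlinarith
      fin_cases i
      · refine ⟨(cop hy2a hq1.2.1).1, (cop hy2a hq1.2.1).2, ?_⟩
        show ((q + b 0 : ℕ) : ℝ) ≤ n * Real.log n ^ 2
        refine le_trans ?_ hsz
        have : q + b 0 ≤ 8 * n := by have := hb 0; omega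
        exact_mod_cast this
      · refine ⟨(cop hy2a hq1.2.2).1, (cop hy2a hq1.2.2).2, ?_⟩
        show ((q - 2 + b 1 : ℕ) : ℝ) ≤ n * Real.log n ^ 2
        refine le_trans ?_ hsz
        have : q - 2 + b 1 ≤ 8 * n := by have := hb 1; omega
        exact_mod_cast this) g₀ G (fun i => by rw [pow_one]; exact hg1 i) (fun i => by rw [pow_one]; exact hg2 i)
    rw [Fin.prod_univ_two, Fin.prod_univ_two] at h1
    refine le_trans ?_ h1
    apply Nat.cast_le.2
    apply card_le_card
    intro g hg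
    rw [mem_filter] at hg ⊢
    refine ⟨hg.1, ?_⟩
    have e2 : (Pool.Agent.H373R2.T7.Vz y * (((1 : ℕ) : ℝ) * Real.log n)) *
        (Pool.Agent.H373R2.T7.Vz y * (((1 : ℕ) : ℝ) * Real.log n)) = (V y * Real.log n) ^ 2 := by
      have : V y = Pool.Agent.H373R2.T7.Vz y := rfl
      rw [this]
      push_cast
      ring
    rw [e2]
    refine lt_of_le_of_lt ?_ hg.2
    apply Nat.cast_le.2
    apply card_le_card
    intro q hq
    rw [mem_filter] at hq
    unfold good
    rw [mem_filter]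
    have hqQ : q ∈ Val n := by
      rw [hJd] at hq
      exact (mem_filter.1 hq.1).1
    have k0 := hq.2 0
    have k1 := hq.2 1
    refine ⟨hqQ, ?_, ?_⟩
    · have : (q + b 0) ^ 1 + primorial y * (g₀ 0 + g 0) = q + (b 0 + primorial y * (g₀ 0 + g 0)) := by ring
      rw [← this]
      exact k0
    · have : (q - 2 + b 1) ^ 1 + primorial y * (g₀ 1 + g 1) = q - 2 + (b 1 + primorial y * (g₀ 1 + g 1)) := by ring
      rw [← this]
      exact k1
  · intro n M _
    have e1 : ∀ b : Fin 2 → ℕ, (loc n M b).card = ∑ q ∈ Val n,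
        (if (q + b 0).Coprime M ∧ (q - 2 + b 1).Coprime M then 1 else 0) := by
      intro b
      unfold loc
      rw [card_filter]
    simp_rw [e1]
    rw [sum_comm]
    have e2 : ∀ q ∈ Val n, ∑ b ∈ Fintype.piFinset (fun _ : Fin 2 => Icc 1 M),
        (if (q + b 0).Coprime M ∧ (q - 2 + b 1).Coprime M then 1 else 0) = M.totient ^ 2 := by
      intro q _
      rw [← card_filter]
      have e3 : (Fintype.piFinset (fun _ : Fin 2 => Icc 1 M)).filter
          (fun b : Fin 2 → ℕ => (q + b 0).Coprime M ∧ (q - 2 + b 1).Coprime M) =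
          Fintype.piFinset (fun i : Fin 2 => (Icc 1 M).filter
            (fun b => ((![q, q - 2] : Fin 2 → ℕ) i + b).Coprime M)) := by
        ext b
        rw [mem_filter, Fintype.mem_piFinset, Fintype.mem_piFinset]
        simp only [Fin.forall_fin_two, mem_filter]
        exact ⟨fun h => ⟨⟨h.1.1, h.2.1⟩, ⟨h.1.2, h.2.2⟩⟩, fun h => ⟨⟨h.1.1, h.2.1⟩, ⟨h.1.2, h.2.2⟩⟩⟩
      rw [e3, Fintype.card_piFinset, Fin.prod_univ_two, Pool.Agent.Q234.TQ.unit_classes,
        Pool.Agent.Q234.TQ.unit_classes, sq]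
    rw [sum_congr rfl e2, sum_const, smul_eq_mul, mul_comm]

end Pool.Agent.Results.MP_0ad054_nt.ShiftPairs
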